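import Pool.Agent.MDF.FIN
import Pool.Agent.MDF.FI2
import Pool.Agent.MDF.DST

/-! The multiset dimension of G(n,p) is finite with high probability for (n-1) p = n ^ x with
1/8 < x <= 1/6. -/

set_option autoImplicit false

namespace Pool.Agent.Results.MP_437110_pr.FiniteRange

open Finset Filter Topology Pool.Agent.MD437 Pool.Agent.MDF

/-- The multiset representation of `v` with respect to the vertex set `W`: the multiset of all
distances from `v` to the elements of `W`, with multiplicity. -/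
noncomputable def rep {V : Type*} (G : SimpleGraph V) (W : Finset V) (v : V) : Multiset ℕ :=
  W.val.map (fun w => G.dist v w)

/-- `W` is a multiset resolving set of `G`. -/
def Resolving {V : Type*} (G : SimpleGraph V) (W : Finset V) : Prop :=
  ∀ u v : V, u ≠ v → rep G W u ≠ rep G W v

/-- The multiset dimension: the least size of a multiset resolving set, `⊤` if there is none. -/
noncomputable def mdim {V : Type*} (G : SimpleGraph V) : ℕ∞ :=
  ⨅ (W : Finset V) (_ : Resolving G W), (W.card : ℕ∞)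

open Classical in
/-- The probability that the Erdos-Renyi random graph `G(n,p)` on `n` labelled vertices has the
property `Q`: the sum over all graphs `G` with the property `Q` of
`p ^ e(G) * (1 - p) ^ (binom(n,2) - e(G))`. -/
noncomputable def gnp (n : ℕ) (p : ℝ) (Q : SimpleGraph (Fin n) → Prop) : ℝ :=
  ∑ G : SimpleGraph (Fin n), if Q G then
    p ^ G.edgeFinset.card * (1 - p) ^ (n.choose 2 - G.edgeFinset.card) else 0

variable {n : ℕ}

lemma gnp_eq (p : ℝ) (Q : SimpleGraph (Fin n) → Prop) :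
    gnp n p Q = pr p (E n) (fun S => Q (gr S)) := by
  classical
  rw [pr_def]
  unfold gnp ex
  refine Finset.sum_bij' (fun G _ => G.edgeFinset) (fun S _ => gr S) ?_ ?_ ?_ ?_ ?_
  · intro G _
    rw [Finset.mem_powerset]
    intro e he
    rw [mem_E]
    rw [SimpleGraph.mem_edgeFinset] at he
    exact G.not_isDiag_of_mem_edgeSet he
  · intro S _
    exact Finset.mem_univ _
  · intro G _
    unfold gr
    rw [SimpleGraph.coe_edgeFinset, SimpleGraph.fromEdgeSet_edgeSet]
  · intro S hS
    rw [Finset.mem_powerset] at hS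
    ext e
    rw [SimpleGraph.mem_edgeFinset]
    unfold gr
    rw [SimpleGraph.edgeSet_fromEdgeSet]
    constructor
    · intro h; exact h.1
    · intro h
      refine ⟨h, ?_⟩
      have := mem_E.mp (hS h)
      simpa using this
  · intro G _
    have h1 : gr G.edgeFinset = G := by
      unfold gr
      rw [SimpleGraph.coe_edgeFinset, SimpleGraph.fromEdgeSet_edgeSet]
    simp only [h1, card_E]
    by_cases h : Q G
    · rw [if_pos h, if_pos h, mul_one]
    · rw [if_neg h, if_neg h, mul_zero]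

lemma mdim_lt_top {V : Type*} (G : SimpleGraph V) (W : Finset V) (h : Resolving G W) :
    mdim G < ⊤ := by
  have h1 : mdim G ≤ (W.card : ℕ∞) := iInf₂_le W h
  exact lt_of_le_of_lt h1 (ENat.coe_lt_top _)

lemma resolving_of (S : Finset (Sym2 (Fin n))) (hc : (gr S).Connected) (W : Finset (Fin n))
    (h : ∀ u v, u ≠ v → ∃ j, (W ∩ sp S u j).card ≠ (W ∩ sp S v j).card) :
    Resolving (gr S) W := by
  intro u v huv hrep
  obtain ⟨j, hj⟩ := h u v huv
  apply hj
  rw [← filter_dist S hc W u j, ← filter_dist S hc W v j]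
  have h1 := congrArg (Multiset.count j) hrep
  unfold rep at h1
  rw [Multiset.count_map, Multiset.count_map] at h1
  have e : ∀ x : Fin n, Multiset.card (Multiset.filter (fun a => j = (gr S).dist x a) W.val)
      = (W.filter (fun w => (gr S).dist x w = j)).card := by
    intro x
    rw [Finset.card_def, Finset.filter_val]
    congr 1
    exact Multiset.filter_congr fun a _ => eq_comm
  rw [e, e] at h1
  exact h1

lemma pr_compl (p : ℝ) (Q : Finset (Sym2 (Fin n)) → Prop) :
    pr p (E n) Q + pr p (E n) (fun S => ¬ Q S) = 1 := by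
  classical
  rw [pr_def, pr_def, ← ex_add, ← ex_const p (E n) 1]
  refine ex_congr p fun S _ => ?_
  by_cases h : Q S <;> simp [h, ex_const]

/-- The reduction to edge sets. -/
theorem of_tendsto (i : ℕ) (x : ℝ) (hx3 : x ≤ 1 / 2)
    (h1 : Tendsto (fun n : ℕ => pr (pN x n) (E n) (fun S =>
      ¬ ((∀ u, bl S u (i + 1) = Finset.univ) ∧ ∃ W : Finset (Fin n),
      ∀ u v, u ≠ v → ∃ j, (W ∩ sp S u j).card ≠ (W ∩ sp S v j).card))) atTop (𝓝 0)) :
    Tendsto (fun n : ℕ => gnp n ((n : ℝ) ^ x / ((n : ℝ) - 1))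
      (fun G => G.Connected ∧ mdim G < ⊤)) atTop (𝓝 1) := by
  have h2 : Tendsto (fun n : ℕ => 1 - pr (pN x n) (E n) (fun S =>
      ¬ ((∀ u, bl S u (i + 1) = Finset.univ) ∧ ∃ W : Finset (Fin n),
      ∀ u v, u ≠ v → ∃ j, (W ∩ sp S u j).card ≠ (W ∩ sp S v j).card))) atTop (𝓝 1) := by
    have := h1.const_sub 1
    simpa using this
  have hp : ∀ n : ℕ, 4 ≤ n → 0 ≤ pN x n ∧ pN x n ≤ 1 := by
    intro n hn
    have hn' : (4 : ℝ) ≤ n := by exact_mod_cast hn
    unfold pN
    refine ⟨div_nonneg (Real.rpow_nonneg (by linarith) _) (by linarith), ?_⟩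
    rw [div_le_one (by linarith)]
    have h3 : (n : ℝ) ^ x ≤ (n : ℝ) ^ (1 / 2 : ℝ) :=
      Real.rpow_le_rpow_of_exponent_le (by linarith) hx3
    refine h3.trans ?_
    rw [← Real.sqrt_eq_rpow, Real.sqrt_le_left (by linarith)]
    nlinarith
  refine tendsto_of_tendsto_of_tendsto_of_le_of_le' h2 tendsto_const_nhds ?_ ?_
  · filter_upwards [eventually_ge_atTop 4] with n hn
    obtain ⟨hp0, hp1⟩ := hp n hn
    have h3 := pr_compl (pN x n) (n := n) (fun S =>
      ((∀ u, bl S u (i + 1) = Finset.univ) ∧ ∃ W : Finset (Fin n),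
      ∀ u v, u ≠ v → ∃ j, (W ∩ sp S u j).card ≠ (W ∩ sp S v j).card))
    have h4 : pr (pN x n) (E n) (fun S =>
        ((∀ u, bl S u (i + 1) = Finset.univ) ∧ ∃ W : Finset (Fin n),
        ∀ u v, u ≠ v → ∃ j, (W ∩ sp S u j).card ≠ (W ∩ sp S v j).card)) ≤
        gnp n (pN x n) (fun G => G.Connected ∧ mdim G < ⊤) := by
      rw [gnp_eq]
      refine pr_mono hp0 hp1 fun S _ h => ?_
      obtain ⟨h5, W, h6⟩ := h
      have hc := gr_connected (by omega : 0 < n) S (i + 1) h5
      exact ⟨hc, mdim_lt_top _ W (resolving_of S hc W h6)⟩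
    have h5 : gnp n ((n : ℝ) ^ x / ((n : ℝ) - 1)) (fun G => G.Connected ∧ mdim G < ⊤) =
      gnp n (pN x n) (fun G => G.Connected ∧ mdim G < ⊤) := rfl
    rw [h5]
    linarith
  · filter_upwards [eventually_ge_atTop 4] with n hn
    obtain ⟨hp0, hp1⟩ := hp n hn
    have h5 : gnp n ((n : ℝ) ^ x / ((n : ℝ) - 1)) (fun G => G.Connected ∧ mdim G < ⊤) =
      gnp n (pN x n) (fun G => G.Connected ∧ mdim G < ⊤) := rfl
    rw [h5, gnp_eq]
    have h6 := pr_compl (pN x n) (n := n) (fun S => (gr S).Connected ∧ mdim (gr S) < ⊤)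
    have h7 := pr_nonneg hp0 hp1 (E n) (fun S => ¬ ((gr S).Connected ∧ mdim (gr S) < ⊤))
    linarith

/-- **Theorem.** For every real `x` with `1/8 < x ≤ 1/6` and `(n - 1) p = n ^ x`, the
probability that `G(n,p)` is connected with finite multiset dimension tends to `1`. -/
theorem result (x : ℝ) (hx1 : 1 / 8 < x) (hx2 : x ≤ 1 / 6) :
    Tendsto (fun n : ℕ => gnp n ((n : ℝ) ^ x / ((n : ℝ) - 1))
      (fun G => G.Connected ∧ mdim G < ⊤)) atTop (𝓝 1) := by
  rcases le_or_gt x (1 / 7) with h | h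
  · refine of_tendsto 7 x (by linarith) (main_tendsto 7 x (by norm_num) (by linarith) ?_ ?_ ?_) <;>
      push_cast <;> linarith
  · rcases le_or_gt x (2 / 13) with h' | h'
    · refine of_tendsto 6 x (by linarith)
        (main_tendsto2 6 x (by norm_num) (by linarith) ?_ ?_ ?_ ?_ ?_) <;>
        push_cast <;> linarith
    · refine of_tendsto 6 x (by linarith)
        (main_tendsto 6 x (by norm_num) (by linarith) ?_ ?_ ?_) <;> push_cast <;> linarith

end Pool.Agent.Results.MP_437110_pr.FiniteRange
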