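import Pool.Agent.MD437.Pigeon
import Mathlib.Analysis.SpecialFunctions.Pow.Asymptotics

/-! The multiset dimension of G(n,p) is infinite with high probability for
(n-1) p = n ^ x with 1/3 < x < 1/2. -/

namespace Pool.Agent.Results.MP_437110_pr.InfiniteRange

open Finset Filter Topology Pool.Agent.MD437

/-- The multiset representation of `v` with respect to the vertex set `W`: the multiset of all
distances from `v` to the elements of `W`, with multiplicity. -/
noncomputable def rep {V : Type*} (G : SimpleGraph V) (W : Finset V) (v : V) : Multiset ℕ :=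
  W.val.map (fun w => G.dist v w)

/-- `W` is a multiset resolving set of `G`. -/
def Resolving {V : Type*} (G : SimpleGraph V) (W : Finset V) : Prop :=
  ∀ u v : V, u ≠ v → rep G W u ≠ rep G W v

/-- The multiset dimension: the least size of a multiset resolving set, `⊤` if there is none. -/
noncomputable def mdim {V : Type*} (G : SimpleGraph V) : ℕ∞ :=
  ⨅ (W : Finset V) (_ : Resolving G W), (W.card : ℕ∞)

open Classical in
/-- The probability that the Erdos-Renyi random graph `G(n,p)` on `n` labelled vertices has the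
property `Q`: the sum over all graphs `G` with the property `Q` of
`p ^ e(G) * (1 - p) ^ (binom(n,2) - e(G))`. -/
noncomputable def gnp (n : ℕ) (p : ℝ) (Q : SimpleGraph (Fin n) → Prop) : ℝ :=
  ∑ G : SimpleGraph (Fin n), if Q G then
    p ^ G.edgeFinset.card * (1 - p) ^ (n.choose 2 - G.edgeFinset.card) else 0

lemma mdim_eq_top {V : Type*} (G : SimpleGraph V) :
    mdim G = ⊤ ↔ ∀ W : Finset V, ¬ Resolving G W := by
  unfold mdim
  rw [iInf_eq_top]
  constructor
  · intro h W hW
    have := h W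
    rw [iInf_eq_top] at this
    exact absurd (this hW) (ENat.natCast_ne_top _)
  · intro h W
    rw [iInf_eq_top]
    intro hW
    exact absurd hW (h W)

/-! ### Bridge between edge sets and graphs -/

variable {n : ℕ}

/-- graph of an edge set -/
def gr (S : Finset (Sym2 (Fin n))) : SimpleGraph (Fin n) :=
  SimpleGraph.fromEdgeSet (S : Set (Sym2 (Fin n)))

lemma gr_adj {S : Finset (Sym2 (Fin n))} {x y : Fin n} : (gr S).Adj x y ↔ ad S x y := by
  unfold gr ad
  rw [SimpleGraph.fromEdgeSet_adj]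
  simp only [Finset.mem_coe]
  tauto

lemma gnp_eq (p : ℝ) (Q : SimpleGraph (Fin n) → Prop) :
    gnp n p Q = pr p (E n) (fun S => Q (gr S)) := by
  classical
  rw [pr_def]
  unfold gnp ex
  refine Finset.sum_bij' (fun G _ => G.edgeFinset) (fun S _ => gr S) ?_ ?_ ?_ ?_ ?_
  · intro G _
    rw [Finset.mem_powerset]
    intro e he
    rw [mem_E]
    rw [SimpleGraph.mem_edgeFinset] at he
    exact G.not_isDiag_of_mem_edgeSet he
  · intro S _
    exact Finset.mem_univ _
  · intro G _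
    unfold gr
    rw [SimpleGraph.coe_edgeFinset, SimpleGraph.fromEdgeSet_edgeSet]
  · intro S hS
    rw [Finset.mem_powerset] at hS
    ext e
    rw [SimpleGraph.mem_edgeFinset]
    unfold gr
    rw [SimpleGraph.edgeSet_fromEdgeSet]
    constructor
    · intro h; exact h.1
    · intro h
      refine ⟨h, ?_⟩
      have := mem_E.mp (hS h)
      simpa using this
  · intro G _
    have h1 : gr G.edgeFinset = G := by
      unfold gr
      rw [SimpleGraph.coe_edgeFinset, SimpleGraph.fromEdgeSet_edgeSet]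
    simp only [h1, card_E]
    by_cases h : Q G
    · rw [if_pos h, if_pos h, mul_one]
    · rw [if_neg h, if_neg h, mul_zero]

lemma good_dist {S : Finset (Sym2 (Fin n))} (h : ∀ u v, u ≠ v → w3 S u v) :
    (∀ u v, (gr S).Reachable u v) ∧ (∀ u v, (gr S).dist u v < 4) ∧
    ∀ u v, (gr S).dist u v = 2 ↔ two S u v := by
  have hw : ∀ u v, u ≠ v → ∃ q : (gr S).Walk u v, q.length = 3 := by
    intro u v huv
    obtain ⟨s, t, h1, h2, h3⟩ := h u v huv
    exact ⟨SimpleGraph.Walk.cons (gr_adj.mpr h1) (SimpleGraph.Walk.cons (gr_adj.mpr h2)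
      (SimpleGraph.Walk.cons (gr_adj.mpr h3) SimpleGraph.Walk.nil)), rfl⟩
  have hr : ∀ u v, (gr S).Reachable u v := by
    intro u v
    by_cases huv : u = v
    · subst huv; exact SimpleGraph.Reachable.refl _
    · obtain ⟨q, _⟩ := hw u v huv
      exact ⟨q⟩
  refine ⟨hr, ?_, ?_⟩
  · intro u v
    by_cases huv : u = v
    · subst huv; rw [SimpleGraph.dist_self]; norm_num
    · obtain ⟨q, hq⟩ := hw u v huv
      have := SimpleGraph.dist_le q
      omega
  · intro u v
    have h1 : (gr S).dist u v = 2 ↔ (gr S).edist u v = 2 := by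
      rw [← (hr u v).coe_dist_eq_edist]
      exact_mod_cast Iff.rfl
    rw [h1, SimpleGraph.edist_eq_two_iff]
    unfold two
    rw [gr_adj]
    refine and_congr Iff.rfl (and_congr Iff.rfl ?_)
    constructor
    · rintro ⟨w, hw⟩
      rw [SimpleGraph.mem_commonNeighbors] at hw
      exact ⟨w, gr_adj.mp hw.1, gr_adj.mp hw.2.symm⟩
    · rintro ⟨w, h1, h2⟩
      exact ⟨w, by
        rw [SimpleGraph.mem_commonNeighbors]
        exact ⟨gr_adj.mpr h1, (gr_adj.mpr h2).symm⟩⟩

lemma good_connected (hn : 2 ≤ n) {S : Finset (Sym2 (Fin n))} (h : Good S) :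
    (gr S).Connected := by
  have : Nonempty (Fin n) := ⟨⟨0, by omega⟩⟩
  exact SimpleGraph.Connected.mk (fun u v => (good_dist h.1).1 u v)

lemma good_top {S : Finset (Sym2 (Fin n))} (h : Good S) : mdim (gr S) = ⊤ := by
  classical
  rw [mdim_eq_top]
  intro W hW
  obtain ⟨u, v, huv, hWuv, ha, hc⟩ := h.2 W
  obtain ⟨hr, hlt, htwo⟩ := good_dist h.1
  apply hW u v huv
  have hcnt : ∀ k : ℕ, (W.filter (fun w => (gr S).dist u w = k)).card
      = (W.filter (fun w => (gr S).dist v w = k)).card := by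
    have h0 : (W.filter (fun w => (gr S).dist u w = 0)).card
      = (W.filter (fun w => (gr S).dist v w = 0)).card := by
      have e : ∀ x : Fin n, W.filter (fun w => (gr S).dist x w = 0)
          = if x ∈ W then {x} else ∅ := by
        intro x
        ext w
        rw [Finset.mem_filter, (hr x w).dist_eq_zero_iff]
        by_cases hx : x ∈ W
        · rw [if_pos hx, Finset.mem_singleton]
          constructor
          · rintro ⟨_, h⟩; exact h.symm
          · rintro rfl; exact ⟨hx, rfl⟩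
        · rw [if_neg hx]
          constructor
          · rintro ⟨h1, rfl⟩; exact absurd h1 hx
          · intro h; exact absurd h (Finset.notMem_empty _)
      rw [e, e]
      by_cases hu : u ∈ W
      · rw [if_pos hu, if_pos (hWuv.mp hu)]; simp
      · rw [if_neg hu, if_neg (fun hv => hu (hWuv.mpr hv))]
    have h1 : (W.filter (fun w => (gr S).dist u w = 1)).card
      = (W.filter (fun w => (gr S).dist v w = 1)).card := by
      have e : ∀ x : Fin n, W.filter (fun w => (gr S).dist x w = 1)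
          = W.filter (fun w => ad S x w) := by
        intro x
        refine Finset.filter_congr fun w _ => ?_
        rw [SimpleGraph.dist_eq_one_iff_adj, gr_adj]
      rw [e, e]
      unfold aW at ha
      exact_mod_cast ha
    have h2 : (W.filter (fun w => (gr S).dist u w = 2)).card
      = (W.filter (fun w => (gr S).dist v w = 2)).card := by
      have e : ∀ x : Fin n, W.filter (fun w => (gr S).dist x w = 2)
          = W.filter (fun w => two S x w) := by
        intro x
        exact Finset.filter_congr fun w _ => htwo x w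
      rw [e, e]
      unfold cW at hc
      exact_mod_cast hc
    have hsum : ∀ x : Fin n, W.card
        = ∑ k ∈ Finset.range 4, (W.filter (fun w => (gr S).dist x w = k)).card := by
      intro x
      exact Finset.card_eq_sum_card_fiberwise (fun w _ => by
        rw [Finset.mem_coe, Finset.mem_range]; exact hlt x w)
    intro k
    by_cases hk : 4 ≤ k
    · rw [Finset.filter_false_of_mem, Finset.filter_false_of_mem]
      · intro w _; have := hlt v w; omega
      · intro w _; have := hlt u w; omega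
    · have hu := hsum u
      have hv := hsum v
      simp only [Finset.sum_range_succ, Finset.sum_range_zero] at hu hv
      interval_cases k
      · exact h0
      · exact h1
      · exact h2
      · omega
  unfold rep
  refine Multiset.ext.mpr fun k => ?_
  rw [Multiset.count_map, Multiset.count_map]
  have := hcnt k
  have e : ∀ x : Fin n, Multiset.card (Multiset.filter (fun a => k = (gr S).dist x a) W.val)
      = (W.filter (fun w => (gr S).dist x w = k)).card := by
    intro x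
    rw [Finset.card_def, Finset.filter_val]
    congr 1
    exact Multiset.filter_congr fun a _ => eq_comm
  rw [e, e]
  exact this

/-! ### Probabilities -/

lemma pr_compl (p : ℝ) (Q : Finset (Sym2 (Fin n)) → Prop) :
    pr p (E n) Q + pr p (E n) (fun S => ¬ Q S) = 1 := by
  classical
  rw [pr_def, pr_def, ← ex_add, ← ex_const p (E n) 1]
  refine ex_congr p fun S _ => ?_
  by_cases h : Q S <;> simp [h, ex_const]

lemma gnp_compl {p : ℝ} (hp0 : 0 ≤ p) (hp1 : p ≤ 1) (Q R : SimpleGraph (Fin n) → Prop)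
    (h : ∀ G, Q G → ¬ R G) : gnp n p Q + gnp n p R ≤ 1 := by
  rw [gnp_eq, gnp_eq, ← pr_compl p (fun S => Q (gr S))]
  have : pr p (E n) (fun S => R (gr S)) ≤ pr p (E n) (fun S => ¬ Q (gr S)) :=
    pr_mono hp0 hp1 fun S _ hR hQ => h _ hQ hR
  linarith

/-- the bound for fixed `n` -/
lemma bound {p d : ℝ} (hp0 : 0 ≤ p) (hp1 : p ≤ 1) (hn2 : 2 ≤ n)
    (hd : d = p * ((n - 1 : ℕ) : ℝ)) (hd16 : 16 ≤ d) (hn : 67200 * d ^ 2 < (n : ℝ))
    (hsm : 10 * (n : ℝ) ^ 2 * Real.exp (-(2 * d)) ≤ 1) :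
    1 - (2 * Real.exp (-(n : ℝ)) + (n : ℝ) * Real.exp (-(2 * d))
      + (n : ℝ) ^ 2 * (2 * Real.exp (-(d / 8)) + Real.exp (-(d ^ 3 / (128 * (n : ℝ))))))
    ≤ gnp n p (fun G => G.Connected ∧ mdim G = ⊤) := by
  have h1 := good_prob hp0 hp1 hn2 hd hd16 hn hsm
  have h2 := pr_compl p (n := n) (fun S => Good S)
  have h3 : pr p (E n) (fun S => Good S) ≤ gnp n p (fun G => G.Connected ∧ mdim G = ⊤) := by
    rw [gnp_eq]
    exact pr_mono hp0 hp1 fun S _ h => ⟨good_connected hn2 h, good_top h⟩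
  linarith

lemma tend_y : Tendsto (fun n : ℕ => (n : ℝ) ^ (1 / 3 : ℝ) / 8) atTop atTop := by
  have h1 : Tendsto (fun n : ℕ => (n : ℝ) ^ (1 / 3 : ℝ)) atTop atTop :=
    (tendsto_rpow_atTop (by norm_num)).comp tendsto_natCast_atTop_atTop
  exact h1.atTop_div_const (by norm_num)

lemma tend_main : Tendsto (fun n : ℕ => (n : ℝ) ^ 2 * Real.exp (-((n : ℝ) ^ (1 / 3 : ℝ) / 8)))
    atTop (𝓝 0) := by
  have h1 := (Real.tendsto_pow_mul_exp_neg_atTop_nhds_zero 6).comp tend_y
  have h2 := h1.const_mul ((512 : ℝ) ^ 2)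
  rw [mul_zero] at h2
  refine h2.congr fun n => ?_
  simp only [Function.comp_apply]
  have h3 : (512 : ℝ) ^ 2 * ((n : ℝ) ^ (1 / 3 : ℝ) / 8) ^ 6 = (n : ℝ) ^ 2 := by
    rw [div_pow]
    have h4 : ((n : ℝ) ^ (1 / 3 : ℝ)) ^ 6 = (n : ℝ) ^ 2 := by
      rw [← Real.rpow_natCast, ← Real.rpow_mul (Nat.cast_nonneg n), ← Real.rpow_natCast]
      norm_num
    rw [h4]; ring
  rw [← mul_assoc, h3]

lemma tend_fail : Tendsto (fun n : ℕ => 2 * Real.exp (-(n : ℝ))
    + 3 * ((n : ℝ) ^ 2 * Real.exp (-((n : ℝ) ^ (1 / 3 : ℝ) / 8))) + (n : ℝ)⁻¹) atTop (𝓝 0) := by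
  have h1 : Tendsto (fun n : ℕ => Real.exp (-(n : ℝ))) atTop (𝓝 0) :=
    Real.tendsto_exp_neg_atTop_nhds_zero.comp tendsto_natCast_atTop_atTop
  have h2 : Tendsto (fun n : ℕ => ((n : ℝ))⁻¹) atTop (𝓝 0) :=
    tendsto_inv_atTop_zero.comp tendsto_natCast_atTop_atTop
  have h3 := ((h1.const_mul 2).add (tend_main.const_mul 3)).add h2
  simpa using h3

/-- The general statement. -/
theorem general (p : ℕ → ℝ)
    (hp : ∀ᶠ n : ℕ in atTop, (384 * (n : ℝ) * Real.log n) ^ (1 / 3 : ℝ) ≤ ((n : ℝ) - 1) * p n ∧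
      ((n : ℝ) - 1) * p n ≤ Real.sqrt n / 260) :
    Tendsto (fun n : ℕ => gnp n (p n) (fun G => G.Connected ∧ mdim G = ⊤)) atTop (𝓝 1) ∧
    Tendsto (fun n : ℕ => gnp n (p n) (fun G => G.Connected ∧ mdim G < ⊤)) atTop (𝓝 0) := by
  have hy := tend_y.eventually_ge_atTop 2
  have hm : ∀ᶠ n : ℕ in atTop,
      (n : ℝ) ^ 2 * Real.exp (-((n : ℝ) ^ (1 / 3 : ℝ) / 8)) ≤ 1 / 10 :=
    tend_main.eventually_le_const (by norm_num)
  have key : ∀ᶠ n : ℕ in atTop, 0 ≤ p n ∧ p n ≤ 1 ∧
      1 - (2 * Real.exp (-(n : ℝ))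
        + 3 * ((n : ℝ) ^ 2 * Real.exp (-((n : ℝ) ^ (1 / 3 : ℝ) / 8))) + (n : ℝ)⁻¹)
      ≤ gnp n (p n) (fun G => G.Connected ∧ mdim G = ⊤) := by
    filter_upwards [hp, hy, hm, eventually_ge_atTop 3] with n hp hy hm hn
    obtain ⟨hp1, hp2⟩ := hp
    have hn1 : (3 : ℝ) ≤ n := by exact_mod_cast hn
    have hn0 : (0 : ℝ) < n := by linarith
    have hcast : ((n - 1 : ℕ) : ℝ) = (n : ℝ) - 1 := by
      rw [Nat.cast_sub (by omega)]; simp
    set d := p n * ((n - 1 : ℕ) : ℝ) with hd
    have hd' : ((n : ℝ) - 1) * p n = d := by rw [hd, hcast]; ring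
    rw [hd'] at hp1 hp2
    have hlog : 1 ≤ Real.log n := by
      rw [Real.le_log_iff_exp_le hn0]
      have := Real.exp_one_lt_d9
      linarith
    have hd1 : (n : ℝ) ^ (1 / 3 : ℝ) ≤ d := by
      refine le_trans (Real.rpow_le_rpow hn0.le ?_ (by norm_num)) hp1
      nlinarith
    have hd16 : 16 ≤ d := by linarith
    have hd0 : 0 < d := by linarith
    have hd3 : 384 * (n : ℝ) * Real.log n ≤ d ^ 3 := by
      have h1 : ((384 * (n : ℝ) * Real.log n) ^ (1 / 3 : ℝ)) ^ 3 ≤ d ^ 3 :=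
        pow_le_pow_left₀ (by positivity) hp1 3
      rw [← Real.rpow_natCast, ← Real.rpow_mul (by positivity)] at h1
      norm_num at h1
      exact h1
    have hd2 : 67200 * d ^ 2 < (n : ℝ) := by
      have h1 : d ^ 2 ≤ (Real.sqrt n / 260) ^ 2 := pow_le_pow_left₀ hd0.le hp2 2
      rw [div_pow, Real.sq_sqrt hn0.le] at h1
      norm_num at h1
      linarith
    have hpn0 : 0 ≤ p n := by
      by_contra hc
      push Not at hc
      have : d ≤ 0 := by
        rw [hd]
        exact mul_nonpos_of_nonpos_of_nonneg hc.le (Nat.cast_nonneg _)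
      linarith
    have hpn1 : p n ≤ 1 := by
      by_contra hc
      push Not at hc
      have h1 : (n : ℝ) - 1 ≤ d := by
        rw [← hd']; nlinarith
      nlinarith
    have hexp : ∀ t : ℝ, (n : ℝ) ^ (1 / 3 : ℝ) / 8 ≤ t →
        Real.exp (-t) ≤ Real.exp (-((n : ℝ) ^ (1 / 3 : ℝ) / 8)) := fun t ht =>
      Real.exp_le_exp.mpr (by linarith)
    have e1 := hexp (2 * d) (by linarith)
    have e2 := hexp (d / 8) (by linarith)
    have hsm : 10 * (n : ℝ) ^ 2 * Real.exp (-(2 * d)) ≤ 1 := by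
      have : (n : ℝ) ^ 2 * Real.exp (-(2 * d))
          ≤ (n : ℝ) ^ 2 * Real.exp (-((n : ℝ) ^ (1 / 3 : ℝ) / 8)) :=
        mul_le_mul_of_nonneg_left e1 (by positivity)
      linarith
    refine ⟨hpn0, hpn1, le_trans ?_ (bound hpn0 hpn1 (by omega) hd hd16 hd2 hsm)⟩
    have e3 : Real.exp (-(d ^ 3 / (128 * (n : ℝ)))) ≤ ((n : ℝ) ^ 3)⁻¹ := by
      have h1 : 3 * Real.log n ≤ d ^ 3 / (128 * (n : ℝ)) := by
        rw [le_div_iff₀ (by positivity)]
        linarith
      have h2 : ((n : ℝ) ^ 3)⁻¹ = Real.exp (-(3 * Real.log n)) := by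
        rw [Real.exp_neg, show 3 * Real.log n = Real.log ((n : ℝ) ^ 3) by
          rw [Real.log_pow]; norm_num, Real.exp_log (by positivity)]
      rw [h2]
      exact Real.exp_le_exp.mpr (by linarith)
    have e4 : (n : ℝ) ^ 2 * Real.exp (-(d ^ 3 / (128 * (n : ℝ)))) ≤ (n : ℝ)⁻¹ := by
      calc (n : ℝ) ^ 2 * Real.exp (-(d ^ 3 / (128 * (n : ℝ))))
          ≤ (n : ℝ) ^ 2 * ((n : ℝ) ^ 3)⁻¹ := mul_le_mul_of_nonneg_left e3 (by positivity)
        _ = (n : ℝ)⁻¹ := by field_simp
    have e5 : (n : ℝ) * Real.exp (-(2 * d))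
        ≤ (n : ℝ) ^ 2 * Real.exp (-((n : ℝ) ^ (1 / 3 : ℝ) / 8)) := by
      refine mul_le_mul ?_ e1 (Real.exp_pos _).le (by positivity)
      nlinarith
    have e6 : (n : ℝ) ^ 2 * Real.exp (-(d / 8))
        ≤ (n : ℝ) ^ 2 * Real.exp (-((n : ℝ) ^ (1 / 3 : ℝ) / 8)) :=
      mul_le_mul_of_nonneg_left e2 (by positivity)
    nlinarith
  have hone : Tendsto (fun n : ℕ => gnp n (p n) (fun G => G.Connected ∧ mdim G = ⊤))
      atTop (𝓝 1) := by
    have hl : Tendsto (fun n : ℕ => 1 - (2 * Real.exp (-(n : ℝ))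
        + 3 * ((n : ℝ) ^ 2 * Real.exp (-((n : ℝ) ^ (1 / 3 : ℝ) / 8))) + (n : ℝ)⁻¹))
        atTop (𝓝 1) := by
      have := tend_fail.const_sub 1
      simpa using this
    refine tendsto_of_tendsto_of_tendsto_of_le_of_le' hl tendsto_const_nhds
      (key.mono fun n h => h.2.2) (key.mono fun n h => ?_)
    have h1 := gnp_compl h.1 h.2.1 (fun G : SimpleGraph (Fin n) => G.Connected ∧ mdim G = ⊤)
      (fun _ => False) (fun _ _ h => h)
    have h2 : 0 ≤ gnp n (p n) (fun _ => False) := by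
      rw [gnp_eq]; exact pr_nonneg h.1 h.2.1 _ _
    linarith
  refine ⟨hone, ?_⟩
  have hu : Tendsto (fun n : ℕ => 1 - gnp n (p n) (fun G => G.Connected ∧ mdim G = ⊤))
      atTop (𝓝 0) := by
    have := hone.const_sub 1
    simpa using this
  refine tendsto_of_tendsto_of_tendsto_of_le_of_le' tendsto_const_nhds hu
    (key.mono fun n h => ?_) (key.mono fun n h => ?_)
  · rw [gnp_eq]; exact pr_nonneg h.1 h.2.1 _ _
  · have h1 := gnp_compl h.1 h.2.1 (fun G : SimpleGraph (Fin n) => G.Connected ∧ mdim G = ⊤)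
      (fun G => G.Connected ∧ mdim G < ⊤) (fun G h1 h2 => (ne_of_lt h2.2) h1.2)
    linarith

/-- The range `1/3 < x < 1/2`. -/
lemma range_ok (x : ℝ) (hx1 : 1 / 3 < x) (hx2 : x < 1 / 2) :
    ∀ᶠ n : ℕ in atTop, (384 * (n : ℝ) * Real.log n) ^ (1 / 3 : ℝ)
        ≤ ((n : ℝ) - 1) * ((n : ℝ) ^ x / ((n : ℝ) - 1)) ∧
      ((n : ℝ) - 1) * ((n : ℝ) ^ x / ((n : ℝ) - 1)) ≤ Real.sqrt n / 260 := by
  have h1 : ∀ᶠ y : ℝ in atTop, ‖Real.log y‖ ≤ (1 / 384) * ‖y ^ (3 * x - 1)‖ :=
    (isLittleO_log_rpow_atTop (by linarith : 0 < 3 * x - 1)).bound (by norm_num)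
  have h1' := tendsto_natCast_atTop_atTop (R := ℝ) |>.eventually h1
  have h2 : Tendsto (fun n : ℕ => (n : ℝ) ^ (1 / 2 - x)) atTop atTop :=
    (tendsto_rpow_atTop (by linarith)).comp tendsto_natCast_atTop_atTop
  filter_upwards [h1', h2.eventually_ge_atTop 260, eventually_ge_atTop 3] with n h1 h2 hn
  have hn1 : (3 : ℝ) ≤ n := by exact_mod_cast hn
  have hn0 : (0 : ℝ) < n := by linarith
  have e : ((n : ℝ) - 1) * ((n : ℝ) ^ x / ((n : ℝ) - 1)) = (n : ℝ) ^ x := by
    have hne : (n : ℝ) - 1 ≠ 0 := ne_of_gt (by linarith)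
    field_simp
  have hlog : 0 ≤ Real.log n := Real.log_nonneg (by linarith)
  rw [e]
  constructor
  · have h3 : 384 * (n : ℝ) * Real.log n ≤ ((n : ℝ) ^ x) ^ 3 := by
      rw [Real.norm_of_nonneg hlog, Real.norm_of_nonneg (by positivity)] at h1
      have h4 : ((n : ℝ) ^ x) ^ 3 = n * (n : ℝ) ^ (3 * x - 1) := by
        rw [Real.rpow_sub hn0, Real.rpow_one, ← Real.rpow_natCast, ← Real.rpow_mul hn0.le]
        field_simp
        norm_num
      rw [h4]
      nlinarith
    have h4 : (((n : ℝ) ^ x) ^ 3) ^ (1 / 3 : ℝ) = (n : ℝ) ^ x := by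
      rw [← Real.rpow_natCast, ← Real.rpow_mul (by positivity)]
      norm_num
    rw [← h4]
    exact Real.rpow_le_rpow (by positivity) h3 (by norm_num)
  · rw [le_div_iff₀ (by norm_num), Real.sqrt_eq_rpow]
    have h3 : (n : ℝ) ^ (1 / 2 : ℝ) = (n : ℝ) ^ x * (n : ℝ) ^ (1 / 2 - x) := by
      rw [← Real.rpow_add hn0]; congr 1; ring
    rw [h3]
    exact mul_le_mul_of_nonneg_left h2 (by positivity)

/-- **Theorem.** For every real `x` with `1/3 < x < 1/2` and `(n - 1) p = n ^ x`, the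
probability that `G(n,p)` is connected with finite multiset dimension tends to `0`, and the
probability that `G(n,p)` is connected with infinite multiset dimension tends to `1`. -/
theorem result (x : ℝ) (hx1 : 1 / 3 < x) (hx2 : x < 1 / 2) :
    Tendsto (fun n : ℕ => gnp n ((n : ℝ) ^ x / ((n : ℝ) - 1))
      (fun G => G.Connected ∧ mdim G < ⊤)) atTop (𝓝 0) ∧
    Tendsto (fun n : ℕ => gnp n ((n : ℝ) ^ x / ((n : ℝ) - 1))
      (fun G => G.Connected ∧ mdim G = ⊤)) atTop (𝓝 1) :=
  (general _ (range_ok x hx1 hx2)).symm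

end Pool.Agent.Results.MP_437110_pr.InfiniteRange
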